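import Pool.Agent.H815.QC.Stm2

set_option autoImplicit false

namespace Pool.Agent.H990.QC

open Pool.Agent.Y110.FJ Pool.Agent.T2H65.GP Pool.Agent.H815.QC

theorem z2cases : ∀ a : ZMod 2, a = 0 ∨ a = 1 := by decide

/-- the homomorphism from the group of order two given by an involution -/
def hz {G : Type} [Group G] (x : G) (hx : x * x = 1) : Multiplicative (ZMod 2) →* G :=
  MonoidHom.mk' (fun m => x ^ (Multiplicative.toAdd m : ZMod 2).val) (by
    have key : ∀ a b : ZMod 2, x ^ (a + b).val = x ^ a.val * x ^ b.val := by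
      intro a b
      have h11 : ((1 : ZMod 2) + 1).val = 0 := rfl
      have h1 : (1 : ZMod 2).val = 1 := rfl
      have h0 : (0 : ZMod 2).val = 0 := rfl
      rcases z2cases a with rfl | rfl <;> rcases z2cases b with rfl | rfl
      · rw [add_zero, h0, pow_zero, mul_one]
      · rw [zero_add, h0, pow_zero, one_mul]
      · rw [add_zero, h0, pow_zero, mul_one]
      · rw [h11, h1, pow_zero, pow_one, hx]
    intro a b
    exact key _ _)

theorem hz_one {G : Type} [Group G] (x : G) (hx : x * x = 1) : hz x hx (Multiplicative.ofAdd 1) = x :=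
  pow_one x

theorem hz_apply {G : Type} [Group G] (x : G) (hx : x * x = 1) (m : Multiplicative (ZMod 2)) :
    hz x hx m = x ^ (Multiplicative.toAdd m : ZMod 2).val := rfl

theorem z2ext {G : Type} [Group G] (f g : Multiplicative (ZMod 2) →* G)
    (h : f (Multiplicative.ofAdd 1) = g (Multiplicative.ofAdd 1)) (m : Multiplicative (ZMod 2)) : f m = g m := by
  have hm : m = 1 ∨ m = Multiplicative.ofAdd 1 := z2cases (Multiplicative.toAdd m)
  rcases hm with rfl | rfl
  · rw [map_one, map_one]
  · exact h

theorem E1_proof : Pool.Agent.H815.QC.S_E1 := by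
  intro n Γ V Δ e he
  -- the generators of the graph product
  have hsq : ∀ v : V, GrP.of Δ (fun _ => Multiplicative (ZMod 2)) v (Multiplicative.ofAdd 1) *
      GrP.of Δ (fun _ => Multiplicative (ZMod 2)) v (Multiplicative.ofAdd 1) = 1 := by
    intro v
    rw [← map_mul]
    have h : (Multiplicative.ofAdd (1 : ZMod 2)) * Multiplicative.ofAdd (1 : ZMod 2) = 1 := rfl
    rw [h, map_one]
  have hrel : ∀ r ∈ relC Γ, FreeGroup.lift (fun a : Fin n =>
      GrP.of Δ (fun _ => Multiplicative (ZMod 2)) (e a) (Multiplicative.ofAdd 1)) r = 1 := by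
    rintro r (⟨a, rfl⟩ | ⟨a, b, hab, rfl⟩)
    · rw [map_mul, FreeGroup.lift_apply_of]
      exact hsq _
    · rw [map_pow, map_mul, FreeGroup.lift_apply_of, FreeGroup.lift_apply_of, pow_two]
      have hc := of_comm (Λ := Δ) (B := fun _ => Multiplicative (ZMod 2)) ((he a b).1 hab)
        (Multiplicative.ofAdd 1) (Multiplicative.ofAdd 1)
      have h1 := hsq (e a)
      have h2 := hsq (e b)
      generalize GrP.of Δ (fun _ => Multiplicative (ZMod 2)) (e a) (Multiplicative.ofAdd 1) = x at *
      generalize GrP.of Δ (fun _ => Multiplicative (ZMod 2)) (e b) (Multiplicative.ofAdd 1) = y at *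
      calc x * y * (x * y) = x * (y * x) * y := by group
        _ = x * (x * y) * y := by rw [hc]
        _ = (x * x) * (y * y) := by group
        _ = 1 := by rw [h1, h2, one_mul]
  let f : PresentedGroup (relC Γ) →* GrP Δ (fun _ => Multiplicative (ZMod 2)) := PresentedGroup.toGroup hrel
  have hf : ∀ a, f (PresentedGroup.of a) = GrP.of Δ (fun _ => Multiplicative (ZMod 2)) (e a)
      (Multiplicative.ofAdd 1) := fun a => PresentedGroup.toGroup.of hrel
  -- the generators of the presented group
  have hsq' : ∀ a : Fin n, (PresentedGroup.of a : PresentedGroup (relC Γ)) * PresentedGroup.of a = 1 := by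
    intro a
    exact PresentedGroup.one_of_mem (Or.inl ⟨a, rfl⟩)
  have hcm' : ∀ a b : Fin n, Γ.Adj a b → (PresentedGroup.of a : PresentedGroup (relC Γ)) * PresentedGroup.of b =
      PresentedGroup.of b * PresentedGroup.of a := by
    intro a b hab
    have h3 : ((PresentedGroup.of a : PresentedGroup (relC Γ)) * PresentedGroup.of b) ^ 2 = 1 :=
      PresentedGroup.one_of_mem (Or.inr ⟨a, b, hab, rfl⟩)
    have h1 := hsq' a
    have h2 := hsq' b
    generalize (PresentedGroup.of a : PresentedGroup (relC Γ)) = x at *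
    generalize (PresentedGroup.of b : PresentedGroup (relC Γ)) = y at *
    rw [pow_two] at h3
    have e1 : x = x⁻¹ := eq_inv_of_mul_eq_one_left h1
    have e2 : y = y⁻¹ := eq_inv_of_mul_eq_one_left h2
    have e3 : x * y = (x * y)⁻¹ := eq_inv_of_mul_eq_one_left h3
    rw [mul_inv_rev, ← e1, ← e2] at e3
    exact e3
  let k : ∀ v : V, Multiplicative (ZMod 2) →* PresentedGroup (relC Γ) := fun v =>
    hz (PresentedGroup.of (e.symm v)) (hsq' (e.symm v))
  have hk : ∀ v w, Δ.Adj v w → ∀ (a b : Multiplicative (ZMod 2)), k v a * k w b = k w b * k v a := by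
    intro v w hvw a b
    have hadj : Γ.Adj (e.symm v) (e.symm w) := by
      rw [he, e.apply_symm_apply, e.apply_symm_apply]
      exact hvw
    have hc : Commute (PresentedGroup.of (e.symm v) : PresentedGroup (relC Γ)) (PresentedGroup.of (e.symm w)) :=
      hcm' _ _ hadj
    exact (hc.pow_pow _ _).eq
  let g : GrP Δ (fun _ => Multiplicative (ZMod 2)) →* PresentedGroup (relC Γ) :=
    glift (B := fun _ => Multiplicative (ZMod 2)) k hk
  have hg : ∀ (v : V) (b : Multiplicative (ZMod 2)),
      g (GrP.of Δ (fun _ => Multiplicative (ZMod 2)) v b) = k v b := fun v b => glift_of k hk v b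
  refine ⟨MonoidHom.toMulEquiv f g ?_ ?_⟩
  · apply PresentedGroup.ext
    intro a
    rw [MonoidHom.comp_apply, hf, hg, MonoidHom.id_apply]
    show hz (PresentedGroup.of (e.symm (e a))) _ (Multiplicative.ofAdd 1) = _
    rw [hz_one, e.symm_apply_apply]
  · apply ghom_ext
    intro v b
    rw [MonoidHom.comp_apply, hg, MonoidHom.id_apply]
    have h := z2ext (f.comp (k v)) (GrP.of Δ (fun _ => Multiplicative (ZMod 2)) v) (by
      rw [MonoidHom.comp_apply]
      show f (hz (PresentedGroup.of (e.symm v)) _ (Multiplicative.ofAdd 1)) = _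
      rw [hz_one, hf, e.apply_symm_apply]) b
    exact h

end Pool.Agent.H990.QC
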